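import Pool.Agent.Q211.DL.Asymp

/-!
# Diffusion limited aggregation on the hypercube ends at time `o(2 ^ n)`

`walk` (the decreasing walk of a permutation) and `step` (one step of the process) are defined in
`Pool.Agent.Q211.DL.Basic`.  Vertices of the hypercube are the subsets of `Fin n`.
-/

set_option autoImplicit false

open MeasureTheory Filter Topology Finset

namespace Pool.Agent.Results.MP_db93e3_pr.EndTime

open Pool.Agent.Q211.DL

/-- The process: `proc ω t` is `C_t` when the walks are `ω 0, ω 1, …`. -/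
noncomputable def proc {n : ℕ} (ω : ℕ → Equiv.Perm (Fin n)) : ℕ → Finset (Finset (Fin n))
  | 0 => {∅}
  | t + 1 => step (proc ω t) (ω t)

/-- The end time. -/
noncomputable def tEnd {n : ℕ} (ω : ℕ → Equiv.Perm (Fin n)) : ℕ := sInf {t | univ ∈ proc ω t}

/-- The discrete sigma-algebra on the permutations. -/
instance permMeasurableSpace (n : ℕ) : MeasurableSpace (Equiv.Perm (Fin n)) := ⊤

/-- The law of an infinite sequence of independent uniformly random permutations. -/
noncomputable def law (n : ℕ) : Measure (ℕ → Equiv.Perm (Fin n)) :=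
  Measure.infinitePi (fun _ : ℕ => (PMF.uniformOfFintype (Equiv.Perm (Fin n))).toMeasure)

/-- Running the process along a list of walks. -/
noncomputable def run {n : ℕ} (C : Finset (Finset (Fin n))) (l : List (Equiv.Perm (Fin n))) :
    Finset (Finset (Fin n)) := l.foldl step C

theorem proc_eq_run {n : ℕ} (ω : ℕ → Equiv.Perm (Fin n)) (T : ℕ) :
    proc ω T = run {∅} (List.ofFn (fun i : Fin T => ω i)) := by
  induction T with
  | zero => rfl
  | succ T ih =>
    rw [proc, ih, List.ofFn_succ_last, run, run, List.foldl_append]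
    rfl

theorem sum_run {n : ℕ} (T : ℕ) (C : Finset (Finset (Fin n))) :
    (∑ w : Fin T → Equiv.Perm (Fin n), Fail (run C (List.ofFn w))) =
      (n.factorial : ℝ) ^ T * Op^[T] Fail C := by
  induction T generalizing C with
  | zero =>
    simp [run]
  | succ T ih =>
    rw [← (Fin.consEquiv (fun _ : Fin (T + 1) => Equiv.Perm (Fin n))).sum_comp,
      Fintype.sum_prod_type, Function.iterate_succ_apply', Op]
    have h1 : ∀ π : Equiv.Perm (Fin n),
        ∑ w : Fin T → Equiv.Perm (Fin n), Fail (run C (List.ofFn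
          (Fin.consEquiv (fun _ : Fin (T + 1) => Equiv.Perm (Fin n)) (π, w)))) =
        (n.factorial : ℝ) ^ T * Op^[T] Fail (step C π) := by
      intro π
      rw [← ih]
      refine Finset.sum_congr rfl fun w _ => ?_
      have : List.ofFn (Fin.consEquiv (fun _ : Fin (T + 1) => Equiv.Perm (Fin n)) (π, w)) =
          π :: List.ofFn w := by
        rw [List.ofFn_succ]
        rfl
      rw [this]
      rfl
    rw [Finset.sum_congr rfl fun π _ => h1 π, ← Finset.mul_sum]
    have := fact_pos (n := n)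
    field_simp
    ring

theorem law_cylinder {n : ℕ} (T : ℕ) (w : Fin T → Equiv.Perm (Fin n)) :
    law n {ω | ∀ i : Fin T, ω i = w i} = ENNReal.ofReal (((n.factorial : ℝ) ^ T)⁻¹) := by
  classical
  have h1 : {ω : ℕ → Equiv.Perm (Fin n) | ∀ i : Fin T, ω i = w i} =
      Set.pi (↑(Finset.range T)) (fun i => if h : i < T then {w ⟨i, h⟩} else Set.univ) := by
    ext ω
    simp only [Set.mem_ofPred_eq, Set.mem_pi, Finset.coe_range, Set.mem_Iio]
    constructor
    · intro h i hi
      rw [dif_pos hi]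
      exact h ⟨i, hi⟩
    · intro h i
      have := h i.1 i.2
      rw [dif_pos i.2] at this
      exact this
  rw [h1, law, Measure.infinitePi_pi]
  · have h2 : ∀ i ∈ Finset.range T, (PMF.uniformOfFintype (Equiv.Perm (Fin n))).toMeasure
        (if h : i < T then {w ⟨i, h⟩} else Set.univ) = ENNReal.ofReal ((n.factorial : ℝ)⁻¹) := by
      intro i hi
      rw [dif_pos (Finset.mem_range.1 hi), PMF.toMeasure_apply_singleton _ _
        (MeasurableSet.singleton _), PMF.uniformOfFintype_apply, Fintype.card_perm,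
        Fintype.card_fin, ENNReal.ofReal_inv_of_pos fact_pos, ENNReal.ofReal_natCast]
    rw [Finset.prod_congr rfl h2, Finset.prod_const, Finset.card_range,
      ← ENNReal.ofReal_pow (by positivity), inv_pow]
  · intro i _
    split_ifs
    · exact MeasurableSet.singleton _
    · exact MeasurableSet.univ

theorem law_fail_le {n : ℕ} (T : ℕ) :
    law n {ω | univ ∉ proc ω T} ≤
      ENNReal.ofReal (Op^[T] Fail ({∅} : Finset (Finset (Fin n)))) := by
  classical
  set W : Finset (Fin T → Equiv.Perm (Fin n)) :=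
    Finset.univ.filter (fun w => univ ∉ run {∅} (List.ofFn w)) with hW
  have h1 : {ω : ℕ → Equiv.Perm (Fin n) | univ ∉ proc ω T} ⊆
      ⋃ w ∈ W, {ω | ∀ i : Fin T, ω i = w i} := by
    intro ω hω
    rw [Set.mem_iUnion₂]
    refine ⟨fun i => ω i, ?_, fun i => rfl⟩
    rw [hW, Finset.mem_filter]
    refine ⟨Finset.mem_univ _, ?_⟩
    rw [← proc_eq_run]
    exact hω
  refine (measure_mono h1).trans ((measure_biUnion_finset_le W _).trans ?_)
  rw [Finset.sum_congr rfl fun w _ => law_cylinder T w, Finset.sum_const, nsmul_eq_mul,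
    ← ENNReal.ofReal_natCast, ← ENNReal.ofReal_mul (by positivity)]
  apply ENNReal.ofReal_le_ofReal
  have h2 : (W.card : ℝ) = ∑ w : Fin T → Equiv.Perm (Fin n), Fail (run {∅} (List.ofFn w)) := by
    rw [hW, Finset.card_filter]
    push_cast
    refine Finset.sum_congr rfl fun w _ => ?_
    rw [Fail]
    by_cases h3 : univ ∈ run {∅} (List.ofFn w)
    · rw [if_pos h3, if_neg (not_not.2 h3)]
    · rw [if_neg h3, if_pos h3]
  rw [h2, sum_run]
  have := fact_pos (n := n)
  field_simp
  exact le_rfl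

theorem proc_card {n : ℕ} (ω : ℕ → Equiv.Perm (Fin n)) (t : ℕ) :
    ∅ ∈ proc ω t ∧ (univ ∈ proc ω t ∨ (proc ω t).card = t + 1) := by
  induction t with
  | zero => exact ⟨Finset.mem_singleton_self _, Or.inr (Finset.card_singleton _)⟩
  | succ t ih =>
    obtain ⟨h0, h1⟩ := ih
    refine ⟨empty_mem_step h0 _, ?_⟩
    by_cases hu : univ ∈ proc ω t
    · exact Or.inl (subset_step _ _ hu)
    · right
      rcases h1 with h | h
      · exact absurd h hu
      · obtain ⟨v, hv, hs, _⟩ := step_spec h0 hu (ω t)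
        rw [proc, hs, Finset.card_insert_of_notMem hv, h]

/-- The process always ends, at the latest at time `2 ^ n`. -/
theorem ends {n : ℕ} (ω : ℕ → Equiv.Perm (Fin n)) : univ ∈ proc ω (2 ^ n) := by
  rcases (proc_card ω (2 ^ n)).2 with h | h
  · exact h
  · exfalso
    have h1 := Finset.card_le_univ (proc ω (2 ^ n))
    rw [Fintype.card_finset, Fintype.card_fin] at h1
    omega

theorem law_tEnd_le {n : ℕ} (ε : ℝ) (hε : 0 < ε) :
    law n {ω | ε * 2 ^ n < tEnd ω} ≤
      ENNReal.ofReal (Op^[⌊ε * 2 ^ n⌋₊] Fail ({∅} : Finset (Finset (Fin n)))) := by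
  refine le_trans (measure_mono ?_) (law_fail_le _)
  intro ω hω hmem
  have h1 : tEnd ω ≤ ⌊ε * 2 ^ n⌋₊ := Nat.sInf_le hmem
  have h2 : 0 ≤ ε * 2 ^ n := by positivity
  have h3 : (tEnd ω : ℝ) ≤ ε * 2 ^ n := (Nat.cast_le.2 h1).trans (Nat.floor_le h2)
  exact absurd hω (not_lt.2 h3)

/-- **Positive answer.**  The process always ends, and `t_end = o(2 ^ n)` in probability. -/
theorem result :
    (∀ (n : ℕ) (ω : ℕ → Equiv.Perm (Fin n)), univ ∈ proc ω (tEnd ω) ∧ tEnd ω ≤ 2 ^ n) ∧
    ∀ ε : ℝ, 0 < ε →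
      Tendsto (fun n : ℕ => law n {ω | ε * 2 ^ n < tEnd ω}) atTop (𝓝 0) := by
  constructor
  · intro n ω
    have hne : {t | univ ∈ proc ω t}.Nonempty := ⟨2 ^ n, ends ω⟩
    exact ⟨Nat.sInf_mem hne, Nat.sInf_le (ends ω)⟩
  · intro ε hε
    rw [ENNReal.tendsto_atTop_zero]
    intro δ hδ
    obtain ⟨δ', hδ'0, hδ'⟩ : ∃ δ' : ℝ, 0 < δ' ∧ ENNReal.ofReal δ' ≤ δ := by
      rcases eq_or_ne δ ⊤ with h | h
      · exact ⟨1, one_pos, h ▸ le_top⟩
      · exact ⟨δ.toReal, ENNReal.toReal_pos hδ.ne' h, (ENNReal.ofReal_toReal h).le⟩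
    obtain ⟨N, hN⟩ := eventually_atTop.1
      (asymp (min ε 1) δ' (lt_min hε one_pos) (min_le_right _ _) hδ'0)
    refine ⟨N, fun n hn => ?_⟩
    refine le_trans (measure_mono ?_) ((law_tEnd_le (min ε 1)
      (lt_min hε one_pos)).trans
      ((ENNReal.ofReal_le_ofReal (hN n hn)).trans hδ'))
    intro ω hω
    have h3 : min ε 1 * 2 ^ n ≤ ε * 2 ^ n :=
      mul_le_mul_of_nonneg_right (min_le_left _ _) (by positivity)
    exact lt_of_le_of_lt h3 hω

end Pool.Agent.Results.MP_db93e3_pr.EndTime
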